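import Pool.Agent.T9h88.IP.Spec

/-!
# Use of the axiom `Ax3`
-/

set_option autoImplicit false

namespace Pool.Agent.T9h46.IP

open Pool.Agent.TH672 (Fm Str upd num digits varStr LogK Form)
open Pool.Agent.TH636.BC
open Pool.Agent.T9h6.BC (sz cl)
open Pool.Agent.T9h88.IO Pool.Agent.T9h88.IP

variable {ι : Type} {Γ : ι → List Fml} {f : ι → ℕ} {φ ψ : ι → Fml}

theorem PP_congr (h : PP Γ f φ) (e : ∀ i, φ i = ψ i) : PP Γ f ψ := by
  obtain rfl : φ = ψ := funext e
  exact h

/-- the body of `Ax3` -/
def bd (a l b c d e g : ℕ) : Fml :=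
  .imp (o2 iD2 b c).fm (.imp (o3 iPS l d e).fm (.imp (o3 iPG l e g).fm (.imp (o2 iOk2 c d).fm
    (.imp (o3 iTr a l b).fm.neg (o2 iC a g).fm))))

theorem Ax3_eq : Ax3 = .all 27 (.all 26 (.all 29 (.all 2 (.all 6 (.all 7 (.all 8
    (bd 27 26 29 2 6 7 8))))))) := rfl

theorem bd_subst (x y a l b c d e g : ℕ) : (bd a l b c d e g).subst x y =
    bd (Form.ren x y a) (Form.ren x y l) (Form.ren x y b) (Form.ren x y c) (Form.ren x y d)
      (Form.ren x y e) (Form.ren x y g) := rfl

theorem bd_freeFor (x y a l b c d e g : ℕ) : (bd a l b c d e g).FreeFor y x := by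
  simp [bd, Fm.FreeFor, At.fm, Fm.neg]

theorem subst_all {x y u : ℕ} {φ : Fml} (h : u ≠ x) :
    (Fm.all u φ).subst x y = .all u (φ.subst x y) := if_neg h

theorem freeFor_all {x y u : ℕ} {φ : Fml} (h : u ≠ y) (h2 : φ.FreeFor y x) :
    (Fm.all u φ).FreeFor y x := .inr (.inr ⟨h, h2⟩)

theorem ren_same (x y : ℕ) : Form.ren x y x = y := by simp [Form.ren]

theorem ren_ne {x y u : ℕ} (h : u ≠ x) : Form.ren x y u = u := by simp [Form.ren, h]

theorem w6 : W6 := by
  intro ι Γ D v l z t r s y hA hv hl hz ht hr hs hy h1 h2 h3 h4 h5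
  have hL : ∀ i, (D i).M < (D i).L := fun i => (D i).h.numlt
  have k0 : PP Γ (fun i => (D i).L) (fun _ => Ax3) :=
    PP.const (Γ₀ := [Ax3]) (Proves.ax (List.mem_singleton_self _)) (fun i ψ hψ => by
      rw [List.mem_singleton.1 hψ]; exact hA i)
  rw [Ax3_eq] at k0
  have k1 : PP Γ (fun i => (D i).L) fun i => .all 26 (.all 29 (.all 2 (.all 6 (.all 7 (.all 8
      (bd (v i + 60) 26 29 2 6 7 8)))))) := by
    refine PP_congr (PP.inst (x := 27) (y := fun i => v i + 60) k0
      (fun i => by have := hv i; have := hL i; omega) (fun i => ?_)) (fun i => ?_)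
    · exact freeFor_all (by omega) (freeFor_all (by omega) (freeFor_all (by omega)
        (freeFor_all (by omega) (freeFor_all (by omega) (freeFor_all (by omega)
          (bd_freeFor ..))))))
    · rw [subst_all (by omega), subst_all (by omega), subst_all (by omega), subst_all (by omega),
        subst_all (by omega), subst_all (by omega), bd_subst, ren_same, ren_ne (by omega),
        ren_ne (by omega), ren_ne (by omega), ren_ne (by omega), ren_ne (by omega),
        ren_ne (by omega)]
  have k1' : PP Γ (fun i => (D i).L) fun i => .all 29 (.all 2 (.all 6 (.all 7 (.all 8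
      (bd (v i + 60) (l i + 60) 29 2 6 7 8))))) := by
    refine PP_congr (PP.inst (x := 26) (y := fun i => l i + 60) k1
      (fun i => by have := hl i; have := hL i; omega) (fun i => ?_)) (fun i => ?_)
    · exact freeFor_all (by omega) (freeFor_all (by omega) (freeFor_all (by omega)
        (freeFor_all (by omega) (freeFor_all (by omega) (bd_freeFor ..)))))
    · rw [subst_all (by omega), subst_all (by omega), subst_all (by omega), subst_all (by omega),
        subst_all (by omega), bd_subst, ren_ne (by omega), ren_same, ren_ne (by omega),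
        ren_ne (by omega), ren_ne (by omega), ren_ne (by omega), ren_ne (by omega)]
  have k2 : PP Γ (fun i => (D i).L) fun i => .all 2 (.all 6 (.all 7 (.all 8
      (bd (v i + 60) (l i + 60) (z i + 60) 2 6 7 8)))) := by
    refine PP_congr (PP.inst (x := 29) (y := fun i => z i + 60) k1'
      (fun i => by have := hz i; have := hL i; omega) (fun i => ?_)) (fun i => ?_)
    · exact freeFor_all (by omega) (freeFor_all (by omega) (freeFor_all (by omega)
        (freeFor_all (by omega) (bd_freeFor ..))))
    · rw [subst_all (by omega), subst_all (by omega), subst_all (by omega), subst_all (by omega),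
        bd_subst, ren_ne (by omega), ren_ne (by omega), ren_same, ren_ne (by omega),
        ren_ne (by omega), ren_ne (by omega), ren_ne (by omega)]
  have k3 : PP Γ (fun i => (D i).L) fun i => .all 6 (.all 7 (.all 8
      (bd (v i + 60) (l i + 60) (z i + 60) (t i + 60) 6 7 8))) := by
    refine PP_congr (PP.inst (x := 2) (y := fun i => t i + 60) k2
      (fun i => by have := ht i; have := hL i; omega) (fun i => ?_)) (fun i => ?_)
    · exact freeFor_all (by omega) (freeFor_all (by omega) (freeFor_all (by omega)
        (bd_freeFor ..)))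
    · rw [subst_all (by omega), subst_all (by omega), subst_all (by omega),
        bd_subst, ren_ne (by omega), ren_ne (by omega), ren_ne (by omega), ren_same,
        ren_ne (by omega), ren_ne (by omega), ren_ne (by omega)]
  have k4 : PP Γ (fun i => (D i).L) fun i => .all 7 (.all 8
      (bd (v i + 60) (l i + 60) (z i + 60) (t i + 60) (r i + 60) 7 8)) := by
    refine PP_congr (PP.inst (x := 6) (y := fun i => r i + 60) k3
      (fun i => by have := hr i; have := hL i; omega) (fun i => ?_)) (fun i => ?_)
    · exact freeFor_all (by omega) (freeFor_all (by omega) (bd_freeFor ..))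
    · rw [subst_all (by omega), subst_all (by omega),
        bd_subst, ren_ne (by omega), ren_ne (by omega), ren_ne (by omega), ren_ne (by omega),
        ren_same, ren_ne (by omega), ren_ne (by omega)]
  have k5 : PP Γ (fun i => (D i).L) fun i => .all 8
      (bd (v i + 60) (l i + 60) (z i + 60) (t i + 60) (r i + 60) (s i + 60) 8) := by
    refine PP_congr (PP.inst (x := 7) (y := fun i => s i + 60) k4
      (fun i => by have := hs i; have := hL i; omega) (fun i => ?_)) (fun i => ?_)
    · exact freeFor_all (by omega) (bd_freeFor ..)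
    · rw [subst_all (by omega),
        bd_subst, ren_ne (by omega), ren_ne (by omega), ren_ne (by omega), ren_ne (by omega),
        ren_ne (by omega), ren_same, ren_ne (by omega)]
  have k6 : PP Γ (fun i => (D i).L) fun i =>
      bd (v i + 60) (l i + 60) (z i + 60) (t i + 60) (r i + 60) (s i + 60) (y i + 60) := by
    refine PP_congr (PP.inst (x := 8) (y := fun i => y i + 60) k5
      (fun i => by have := hy i; have := hL i; omega) (fun i => ?_)) (fun i => ?_)
    · exact bd_freeFor ..
    · rw [bd_subst, ren_ne (by omega), ren_ne (by omega), ren_ne (by omega), ren_ne (by omega),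
        ren_ne (by omega), ren_ne (by omega), ren_same]
  have k7 := PP.k h1.sp.left k6
  exact PP.s (PP.s (PP.s (PP.s (PP.s k7 h1) h2) h3) h4) h5

end Pool.Agent.T9h46.IP
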